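import Pool.Agent.TH85.PD.Defs

/-!
# Open subvarieties of smooth projective varieties: basic definitions
-/

open CategoryTheory AlgebraicGeometry

universe u v w

namespace Pool.Agent.TH85.OV

open Pool.Agent.H914 Pool.Agent.H914.VarClass Pool.Agent.H914.VarClass.Obj Pool.Agent.W492.BB
  Pool.Agent.W550.Corr Pool.Agent.TH133

variable {k : Type u} [Field k] {𝒱 : VarClass k}

/-- The complement of the open subset `V` of `X` is the union of the images of the finitely many
morphisms `f j : Z j ⟶ X`, where the `Z j` are varieties of the class `𝒱`. -/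
def IsCovered {X : 𝒱.Obj} (V : X.V.X.Opens) {r : ℕ} (Z : Fin r → 𝒱.Obj)
    (f : ∀ j, Z j ⟶ X) : Prop :=
  ∀ x : X.V.X, x ∈ V ↔ ∀ j, x ∉ Set.range (f j).hom

/-- The sum over all `j` of the images of the classes on `Z j` under the push-forwards along the
morphisms `f j : Z j ⟶ X`, in degree `i`. (`δ = 1` for Chow groups, `δ = 2` for cohomology.) -/
def pushedFrom {F : Type w} [Field F] (T : TheoryData.{u, v, w} 𝒱 F) (δ : ℤ) {X : 𝒱.Obj} {r : ℕ}
    (Z : Fin r → 𝒱.Obj) (f : ∀ j, Z j ⟶ X) (i : ℤ) : Submodule F (T.A X) :=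
  ⨆ j, (T.gr (Z j) (i - δ * ((X.dim : ℤ) - (Z j).dim))).map (T.push (f j))

section weil

variable {C : TheoryData.{u, v, 0} 𝒱 ℚ} {K : Type w} [Field K] {H : WeilTheoryData.{u, v, w} C K}

variable (H) in
/-- `H^m(X) = 0`. -/
def CohVanishes (X : 𝒱.Obj) (m : ℤ) : Prop := ∀ a : H.A X, H.Deg m a → a = 0

variable (H) in
/-- The cycle class map `CH^i(X) → H^(2i)(X)` is injective. -/
def ClInjective (X : 𝒱.Obj) (i : ℕ) : Prop := ∀ x : C.A X, C.Deg i x → H.cl x = 0 → x = 0

variable (H) in
/-- The cycle class maps `CH^i(G) ⊗ K → H^(2i)(G)` are isomorphisms (they are surjective, and `cl` is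
injective on `CH^i(G)`; the intersection form is rational), and `H^m(G) = 0` for odd `m`
(for example `G` is a product of projective spaces, a Grassmannian, or any variety with a cellular
decomposition). -/
structure IsCellular (G : 𝒱.Obj) : Prop where
  odd : ∀ m : ℤ, Odd m → CohVanishes H G m
  inj : ∀ i : ℕ, ClInjective H G i
  span : ∀ i : ℕ, H.gr G (2 * i) ≤ Submodule.span K {a | ∃ x : C.A G, C.Deg i x ∧ H.cl x = a}

variable (H) in
/-- The formal properties of the set `S` of all products `P^N × P^M` of two projective spaces: they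
are cellular and, up to a non-zero rational factor, each divisor class on a variety `Y` is the
pull-back of a divisor class along a closed immersion of `Y` in a member of `S` (a multiple of the
divisor class is the difference of two very ample classes). -/
structure IsAmbient (S : Set 𝒱.Obj) : Prop where
  cellular : ∀ G ∈ S, IsCellular H G
  restrict : ∀ (Y : 𝒱.Obj) (ξ : C.A Y), C.Deg 1 ξ → ∃ G ∈ S, ∃ (f : Y ⟶ G) (a : C.A G) (q : ℚ),
    IsClosedImmersion f.hom ∧ C.Deg 1 a ∧ q ≠ 0 ∧ C.up f a = q • ξ

variable (H) in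
/-- The class `a ∈ CH^i(X)` is numerically trivial: the degree of `a b` (the orientation of its cycle
class) is zero for all `b ∈ CH^(dim X - i)(X)`. -/
def NumZero {X : 𝒱.Obj} (i : ℤ) (a : C.A X) : Prop :=
  ∀ b : C.A X, C.Deg ((X.dim : ℤ) - i) b → H.tr X (H.cl (C.mul a b)) = 0

variable (H) in
/-- The standard conjecture D for all varieties of the class: numerically trivial cycles are
homologically trivial. -/
def StandardD : Prop :=
  ∀ (X : 𝒱.Obj) (i : ℕ) (z : C.A X), C.Deg i z → NumZero H i z → H.cl z = 0

end weil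

end Pool.Agent.TH85.OV
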