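import Pool.Agent.TH85.OV.Defs
import Pool.Agent.TH85.PD.Num
import Pool.Agent.TH133.Pg

/-!
# Open subvarieties of smooth projective varieties: orthogonality
-/

open CategoryTheory AlgebraicGeometry

universe u v w

namespace Pool.Agent.TH85.OV

open Pool.Agent.H914 Pool.Agent.H914.VarClass Pool.Agent.H914.VarClass.Obj Pool.Agent.W492.BB
  Pool.Agent.W550.Corr Pool.Agent.TH133 Pool.Agent.TH829.Prime Pool.Agent.TH85.PD

set_option linter.unusedSectionVars false

lemma exists_of_annihilator {A B : Type*} [AddCommGroup A] [Module ℚ A] [AddCommGroup B]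
    [Module ℚ B] [Module.Finite ℚ B] (p : A →ₗ[ℚ] Module.Dual ℚ B) (U : Submodule ℚ A) (x : A)
    (h : ∀ b : B, (∀ u ∈ U, p u b = 0) → p x b = 0) : ∃ u ∈ U, p u = p x := by
  have h1 : p x ∈ (U.map p).dualCoannihilator.dualAnnihilator := by
    rw [Submodule.mem_dualAnnihilator]
    intro b hb
    apply h
    intro u hu
    exact (Submodule.mem_dualCoannihilator b).1 hb (p u) ⟨u, hu, rfl⟩
  rw [Subspace.dualCoannihilator_dualAnnihilator_eq] at h1
  exact h1

section general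

variable {k : Type u} [Field k] {𝒱 : VarClass k} {C : TheoryData.{u, v, 0} 𝒱 ℚ}
  [hC : IsChowProj C] {K : Type w} [Field K] [CharZero K]
  {H : WeilTheoryData.{u, v, w} C K} [hH : IsWeilProj H] {X Y : 𝒱.Obj}

include hC hH

lemma tr_cl_iff {x : C.A X} (hx : C.Deg X.dim x) : H.tr X (H.cl x) = 0 ↔ HasDegree C x 0 := by
  obtain ⟨c, hc, h⟩ := exists_tr_const H X
  obtain ⟨q, hq⟩ := exists_hasDegree hx
  rw [h x q hx hq]
  constructor
  · intro h1
    rcases mul_eq_zero.1 h1 with h2 | h2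
    · have h3 : q = 0 := by exact_mod_cast h2
      rwa [h3] at hq
    · exact absurd h2 hc
  · intro h1
    rw [hasDegree_unique H hq h1, Rat.cast_zero, zero_mul]

lemma numZero_iff {i : ℤ} {a : C.A X} (ha : C.Deg i a) : NumZero H i a ↔ NumTrivial C i a := by
  refine forall_congr' fun b => forall_congr' fun hb => ?_
  have hab : a * b ∈ C.gr X X.dim := by
    have := C.mul_mem ha hb
    rwa [add_sub_cancel] at this
  exact tr_cl_iff hab

omit hC [CharZero K] in
lemma tr_push_mul (f : X ⟶ Y) (a : H.A X) (b : H.A Y) :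
    H.tr Y (H.push f a * b) = H.tr X (a * H.pull f b) := by
  rw [← H.proj_right, H.tr_push]

/-- The classes orthogonal to `cl β`. -/
def orth (H : WeilTheoryData.{u, v, w} C K) [IsWeilProj H] (β : C.A X) : Submodule ℚ (C.A X) where
  carrier := {u | H.tr X (H.cl u * H.cl β) = 0}
  zero_mem' := by
    change H.tr X (H.cl 0 * H.cl β) = 0
    rw [map_zero, zero_mul, map_zero]
  add_mem' := by
    intro a b (ha : _ = _) (hb : _ = _)
    change H.tr X (H.cl (a + b) * H.cl β) = 0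
    rw [map_add, add_mul, map_add, ha, hb, add_zero]
  smul_mem' := by
    intro q a (ha : _ = _)
    change H.tr X (H.cl (q • a) * H.cl β) = 0
    rw [cl_rat_smul, smul_mul_assoc, map_smul, ha, smul_zero]

lemma mem_orth {β u : C.A X} : u ∈ orth H β ↔ H.tr X (H.cl u * H.cl β) = 0 := Iff.rfl

variable {r : ℕ} {Z : Fin r → 𝒱.Obj} {f : ∀ j, Z j ⟶ X}

omit hH [CharZero K] in
lemma deg_up {i : ℕ} {β : C.A X} (hβ : C.Deg ((X.dim : ℤ) - i) β) (j : Fin r) :
    C.Deg ((X.dim : ℤ) - i) (C.up (f j) β) := C.pull_mem (f j) hβ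

lemma orth_of_num {i : ℕ} {β : C.A X}
    (hn : ∀ j, NumZero H ((X.dim : ℤ) - i) (C.up (f j) β)) :
    pushedFrom C 1 Z f i ≤ orth H β := by
  refine iSup_le fun j => ?_
  rintro _ ⟨ζ, hζ, rfl⟩
  have h2 := hn j ζ (by
    have e1 : ((Z j).dim : ℤ) - ((X.dim : ℤ) - i) = i - 1 * ((X.dim : ℤ) - (Z j).dim) := by ring
    rw [e1]
    exact hζ)
  rw [mem_orth, H.cl_push, tr_push_mul, ← H.cl_pull, H.cl_central, ← map_mul]
  exact h2

lemma num_of_orth {i : ℕ} {β : C.A X} (h : pushedFrom C 1 Z f i ≤ orth H β) (j : Fin r) :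
    NumZero H ((X.dim : ℤ) - i) (C.up (f j) β) := by
  intro ζ hζ
  have h2 : C.push (f j) ζ ∈ orth H β := by
    apply h
    refine Submodule.mem_iSup_of_mem j ⟨ζ, ?_, rfl⟩
    have e1 : ((Z j).dim : ℤ) - ((X.dim : ℤ) - i) = i - 1 * ((X.dim : ℤ) - (Z j).dim) := by ring
    rw [← e1]
    exact hζ
  rw [mem_orth, H.cl_push, tr_push_mul, ← H.cl_pull, H.cl_central, ← map_mul] at h2
  exact h2

omit [CharZero K] in
lemma tr_eq_zero_of_cl {β : C.A X} (h : ∀ j, H.cl (C.up (f j) β) = 0) {m : ℤ} {a : H.A X}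
    (ha : a ∈ pushedFrom H.toTheoryData 2 Z f m) : H.tr X (a * H.cl β) = 0 := by
  have h1 : pushedFrom H.toTheoryData 2 Z f m ≤
      LinearMap.ker ((H.tr X) ∘ₗ (LinearMap.mulRight K (H.cl β))) := by
    refine iSup_le fun j => ?_
    rintro _ ⟨η, hη, rfl⟩
    rw [LinearMap.mem_ker, LinearMap.comp_apply, LinearMap.mulRight_apply, tr_push_mul,
      ← H.cl_pull]
    have h2 : H.cl (C.pull (f j) β) = 0 := h j
    rw [h2, mul_zero, map_zero]
  exact h1 ha

omit [CharZero K] in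
lemma cl_zero_of_tr {i : ℕ} {β : C.A X} (hβ : C.Deg ((X.dim : ℤ) - i) β)
    (h : ∀ a ∈ pushedFrom H.toTheoryData 2 Z f (2 * i), H.tr X (a * H.cl β) = 0) (j : Fin r) :
    H.cl (C.up (f j) β) = 0 := by
  apply H.nondeg
  have h1 : (H.tr (Z j)) ∘ₗ (LinearMap.mulLeft K (H.cl (C.pull (f j) β))) = 0 := by
    apply ext_gr H
    intro m η hη
    rw [LinearMap.comp_apply, LinearMap.mulLeft_apply, LinearMap.zero_apply]
    by_cases hm : m = 2 * (i : ℤ) - 2 * ((X.dim : ℤ) - (Z j).dim)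
    · rw [H.cl_central, H.cl_pull, ← tr_push_mul]
      apply h
      exact Submodule.mem_iSup_of_mem j ⟨η, by rw [← hm]; exact hη, rfl⟩
    · apply tr_zero H (H.mul_mem (H.cl_mem (deg_up hβ j)) hη)
      intro h2
      apply hm
      linarith
  exact fun b => LinearMap.congr_fun h1 b

end general

end Pool.Agent.TH85.OV
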