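import Pool.Agent.TH85.OV.Base

/-!
# Open subvarieties of smooth projective varieties: definitions
-/

open CategoryTheory AlgebraicGeometry

universe u v w

namespace Pool.Agent.TH85.OV

open Pool.Agent.H914 Pool.Agent.H914.VarClass Pool.Agent.H914.VarClass.Obj Pool.Agent.W492.BB
  Pool.Agent.W550.Corr Pool.Agent.TH133

variable {k : Type u} [Field k] {𝒱 : VarClass k}

section weil

variable {C : TheoryData.{u, v, 0} 𝒱 ℚ} {K : Type w} [Field K] (H : WeilTheoryData.{u, v, w} C K)

/-- The data of Chow groups, cohomology groups and Abel-Jacobi maps for the open subvarieties `V` of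
the varieties `X` of the class `𝒱`. The group `CH^i(V)` is the quotient of `CH^i(X)` by `chKer X V i`,
and the image of `H^m(X) → H^m(V)` is the quotient of `H^m(X)` by `cohKer X V m`. -/
structure OpenData where
  /-- the kernel of the (surjective) restriction `CH^i(X) → CH^i(V)` -/
  chKer : ∀ X : 𝒱.Obj, X.V.X.Opens → ℕ → Submodule ℚ (C.A X)
  /-- the kernel of the restriction `H^m(X) → H^m(V)` -/
  cohKer : ∀ X : 𝒱.Obj, X.V.X.Opens → ℕ → Submodule K (H.A X)
  /-- the group `J^i(V)`, tensored with the rational numbers -/
  J : ∀ X : 𝒱.Obj, X.V.X.Opens → ℕ → Type v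
  [grp : ∀ X V i, AddCommGroup (J X V i)]
  /-- the map which sends a class `x ∈ CH^i(X)` whose restriction `x|V` is homologically trivial to
  the Abel-Jacobi invariant of `x|V`; its values on other classes are never used -/
  aj : ∀ (X : 𝒱.Obj) (V : X.V.X.Opens) (i : ℕ), C.A X → J X V i

attribute [instance] OpenData.grp

variable {H}

/-- The restriction to `V` of the class `x ∈ CH^i(X)` is homologically trivial. -/
def OpenData.HomTrivial (O : OpenData H) {X : 𝒱.Obj} (V : X.V.X.Opens) (i : ℕ) (x : C.A X) : Prop :=
  C.Deg i x ∧ H.cl x ∈ O.cohKer X V (2 * i)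

/-- The Abel-Jacobi map of `V` is injective on the group `CH^i(V)_hom` of homologically trivial
cycles of codimension `i` (with rational coefficients): if `x ∈ CH^i(X)`, if `x|V` is homologically
trivial and its Abel-Jacobi invariant is zero, then `x|V = 0`. -/
def OpenData.Injective (O : OpenData H) {X : 𝒱.Obj} (V : X.V.X.Opens) (i : ℕ) : Prop :=
  ∀ x : C.A X, O.HomTrivial V i x → O.aj X V i x = 0 → x ∈ O.chKer X V i

/-- The formal properties of the Chow groups, the Betti cohomology groups and the Abel-Jacobi maps
for open subvarieties `V` of smooth projective varieties `X` over an algebraically closed subfield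
of the complex numbers:

* the complement of `V` is the union of the images of finitely many morphisms from smooth projective
  varieties (resolution of singularities);
* for each such finite family `f j : Z j ⟶ X` the kernel of `CH^i(X) → CH^i(V)` is the sum of the
  images of the groups `CH(Z j)` (localisation sequence, rational coefficients);
* the kernel of `H^m(X) → H^m(V)` is the sum of the images of the groups `H(Z j)` (Deligne);
* if `H^(2i-1)(X) = 0`, the Abel-Jacobi map of `V` in codimension `i` is zero. (In this case the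
  weights of `H^(2i-1)(V)(i)` are at least zero, so the restriction to the part of weight zero of the
  extension of mixed Hodge structures attached to a cycle is an extension of polarizable pure Hodge
  structures of the same weight; these are semisimple.) -/
structure OpenData.IsBetti (O : OpenData H) : Prop where
  exists_cover : ∀ (X : 𝒱.Obj) (V : X.V.X.Opens), ∃ (r : ℕ) (Z : Fin r → 𝒱.Obj)
    (f : ∀ j, Z j ⟶ X), IsCovered V Z f
  chKer_eq : ∀ (X : 𝒱.Obj) (V : X.V.X.Opens) (r : ℕ) (Z : Fin r → 𝒱.Obj) (f : ∀ j, Z j ⟶ X),
    IsCovered V Z f → ∀ i : ℕ, O.chKer X V i = pushedFrom C 1 Z f i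
  cohKer_eq : ∀ (X : 𝒱.Obj) (V : X.V.X.Opens) (r : ℕ) (Z : Fin r → 𝒱.Obj) (f : ∀ j, Z j ⟶ X),
    IsCovered V Z f → ∀ m : ℕ, O.cohKer X V m = pushedFrom H.toTheoryData 2 Z f m
  aj_eq_zero : ∀ (X : 𝒱.Obj) (V : X.V.X.Opens) (i : ℕ), CohVanishes H X (2 * i - 1) →
    ∀ x : C.A X, O.HomTrivial V i x → O.aj X V i x = 0

variable (H) in
/-- The standard conjecture D for the restrictions to the `Z j` of the classes on `X`, where
`f j : Z j ⟶ X` is a finite family of morphisms: if `β ∈ CH^(dim X - i)(X)` and all `(f j)^* β` are
numerically trivial, then all `(f j)^* β` are homologically trivial. -/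
def BoundaryD {X : 𝒱.Obj} (i : ℕ) {r : ℕ} (Z : Fin r → 𝒱.Obj) (f : ∀ j, Z j ⟶ X) : Prop :=
  ∀ β : C.A X, C.Deg ((X.dim : ℤ) - i) β →
    (∀ j, NumZero H ((X.dim : ℤ) - i) (C.up (f j) β)) → ∀ j, H.cl (C.up (f j) β) = 0

end weil

end Pool.Agent.TH85.OV
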