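import Pool.Agent.TH85.OV.Base

/-!
# Cycle class maps of open subvarieties: definitions
-/

open CategoryTheory AlgebraicGeometry

universe u v w

namespace Pool.Agent.TH85.OV

open Pool.Agent.H914 Pool.Agent.H914.VarClass Pool.Agent.H914.VarClass.Obj Pool.Agent.W492.BB
  Pool.Agent.W550.Corr Pool.Agent.TH133

variable {k : Type u} [Field k] {𝒱 : VarClass k} {C : TheoryData.{u, v, 0} 𝒱 ℚ} {K : Type w}
  [Field K]

/-- The data of the restrictions of Chow groups and cohomology groups from the varieties `X` of the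
class `𝒱` to their open subvarieties `V`. The group `CH^i(V)` is the quotient of `CH^i(X)` by
`chKer X V i`, and the image of `H^m(X) → H^m(V)` is the quotient of `H^m(X)` by `cohKer X V m`. -/
structure RestrData (H : WeilTheoryData.{u, v, w} C K) where
  /-- the kernel of the (surjective) restriction `CH^i(X) → CH^i(V)` -/
  chKer : ∀ X : 𝒱.Obj, X.V.X.Opens → ℕ → Submodule ℚ (C.A X)
  /-- the kernel of the restriction `H^m(X) → H^m(V)` -/
  cohKer : ∀ X : 𝒱.Obj, X.V.X.Opens → ℕ → Submodule K (H.A X)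

variable {H : WeilTheoryData.{u, v, w} C K}

/-- The formal properties of Chow groups and `l`-adic cohomology for open subvarieties `V` of smooth
projective varieties `X`, when the complement of `V` is the union of the images of finitely many
morphisms `f j : Z j ⟶ X` from varieties of the class: the kernel of `CH^i(X) → CH^i(V)` is the sum
of the images of the groups `CH(Z j)` (localisation sequence, rational coefficients), and the kernel
of `H^m(X) → H^m(V)` is the sum of the images of the groups `H(Z j)` (weights, Deligne). -/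
structure RestrData.IsLocal (O : RestrData H) : Prop where
  chKer_eq : ∀ (X : 𝒱.Obj) (V : X.V.X.Opens) (r : ℕ) (Z : Fin r → 𝒱.Obj) (f : ∀ j, Z j ⟶ X),
    IsCovered V Z f → ∀ i : ℕ, O.chKer X V i = pushedFrom C 1 Z f i
  cohKer_eq : ∀ (X : 𝒱.Obj) (V : X.V.X.Opens) (r : ℕ) (Z : Fin r → 𝒱.Obj) (f : ∀ j, Z j ⟶ X),
    IsCovered V Z f → ∀ m : ℕ, O.cohKer X V m = pushedFrom H.toTheoryData 2 Z f m

/-- The cycle class map `CH^i(V) ⊗ K → H^(2i)(V)` is injective: if the combination
`∑ c_j cl(x_j)` of classes of cycles `x_j ∈ CH^i(X)`, with `c_j ∈ K`, restricts to zero in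
`H^(2i)(V)`, then `∑ c_j ⊗ x_j|V` is zero in `K ⊗ CH^i(V)`, that is, `∑ c_j l(x_j) = 0` for all
linear forms `l` on `CH^i(X)` which vanish on the kernel of `CH^i(X) → CH^i(V)`. -/
def RestrData.Injective (O : RestrData H) {X : 𝒱.Obj} (V : X.V.X.Opens) (i : ℕ) : Prop :=
  ∀ (n : ℕ) (c : Fin n → K) (x : Fin n → C.A X), (∀ j, C.Deg i (x j)) →
    ∑ j, c j • H.cl (x j) ∈ O.cohKer X V (2 * i) →
      ∀ l : C.A X →ₗ[ℚ] ℚ, (∀ u ∈ O.chKer X V i, l u = 0) → ∑ j, c j * (l (x j) : K) = 0

/-- The cycle class maps `CH^i(V) ⊗ K → H^(2i)(V)` are injective for all `i` and all open `V` in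
varieties `X` in the set `S` whose complement is the union of the images of finitely many morphisms
from varieties of the class. -/
def RestrData.InjectiveOn (O : RestrData H) (S : Set 𝒱.Obj) : Prop :=
  ∀ X ∈ S, ∀ (V : X.V.X.Opens) (r : ℕ) (Z : Fin r → 𝒱.Obj) (f : ∀ j, Z j ⟶ X),
    IsCovered V Z f → ∀ i : ℕ, O.Injective V i

end Pool.Agent.TH85.OV
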