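import Pool.Agent.TH85.OV.Core

/-!
# Open subvarieties of smooth projective varieties and the standard conjecture D
-/

open CategoryTheory AlgebraicGeometry

universe u v w

namespace Pool.Agent.TH85.OV

open Pool.Agent.H914 Pool.Agent.H914.VarClass Pool.Agent.H914.VarClass.Obj Pool.Agent.W492.BB
  Pool.Agent.W550.Corr Pool.Agent.TH133 Pool.Agent.TH829.Prime Pool.Agent.TH85.PD

set_option linter.unusedSectionVars false

section general

variable {k : Type u} [Field k] {𝒱 : VarClass k} {C : TheoryData.{u, v, 0} 𝒱 ℚ}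
  [hC : IsChowProj C] {K : Type w} [Field K]
  {H : WeilTheoryData.{u, v, w} C K} [hH : IsWeilProj H] {X Y : 𝒱.Obj}
  {r : ℕ} {Z : Fin r → 𝒱.Obj} {f : ∀ j, Z j ⟶ X}

include hC in
lemma pushedFrom_le (i : ℤ) : pushedFrom C 1 Z f i ≤ C.gr X i := by
  refine iSup_le fun j => ?_
  rintro _ ⟨a, ha, rfl⟩
  have h1 := C.push_mem (f j) ha
  have e1 : i - 1 * ((X.dim : ℤ) - (Z j).dim) + 1 * ((X.dim : ℤ) - (Z j).dim) = i := by ring
  rwa [e1] at h1

include hH in
lemma pushedFromH_le (i : ℤ) : pushedFrom H.toTheoryData 2 Z f i ≤ H.gr X i := by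
  refine iSup_le fun j => ?_
  rintro _ ⟨a, ha, rfl⟩
  have h1 := H.push_mem (f j) ha
  have e1 : i - 2 * ((X.dim : ℤ) - (Z j).dim) + 2 * ((X.dim : ℤ) - (Z j).dim) = i := by ring
  rwa [e1] at h1

include hC hH in
/-- On a cellular variety the classes orthogonal to all cycle classes vanish. -/
lemma cl_zero_of_cellular (hG : IsCellular H X) {i : ℕ} {a : H.A X} (ha : H.Deg (2 * i) a)
    (h : ∀ b, C.Deg ((X.dim : ℤ) - i) b → H.tr X (a * H.cl b) = 0) : a = 0 := by
  apply H.nondeg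
  have h1 : (H.tr X) ∘ₗ (LinearMap.mulLeft K a) = 0 := by
    apply ext_gr H
    intro m η hη
    rw [LinearMap.zero_apply]
    by_cases hm : m = 2 * (X.dim : ℤ) - 2 * i
    · rcases lt_or_ge (X.dim : ℤ) i with h2 | h2
      · rw [hm, H.gr_neg X _ (by omega)] at hη
        rw [(Submodule.mem_bot _).1 hη, map_zero]
      · obtain ⟨l, hl⟩ : ∃ l : ℕ, (l : ℤ) = (X.dim : ℤ) - i := ⟨X.dim - i, by omega⟩
        have h3 : H.gr X m ≤ LinearMap.ker ((H.tr X) ∘ₗ (LinearMap.mulLeft K a)) := by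
          have e1 : m = 2 * (l : ℤ) := by rw [hl, hm]; ring
          rw [e1]
          refine (hG.span l).trans (Submodule.span_le.2 ?_)
          rintro _ ⟨b, hb, rfl⟩
          rw [SetLike.mem_coe, LinearMap.mem_ker, LinearMap.comp_apply, LinearMap.mulLeft_apply]
          apply h
          rw [← hl]
          exact hb
        exact h3 hη
    · rw [LinearMap.comp_apply, LinearMap.mulLeft_apply]
      apply tr_zero H (H.mul_mem ha hη)
      intro h2
      apply hm
      linarith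
  exact fun b => LinearMap.congr_fun h1 b

end general

section rat

variable {k : Type u} [Field k] {𝒱 : VarClass k} {C : TheoryData.{u, v, 0} 𝒱 ℚ}
  [hC : IsChowProj C] {H : WeilTheoryData.{u, v, 0} C ℚ} [hH : IsWeilProj H] {X Y : 𝒱.Obj}
  {r : ℕ} {Z : Fin r → 𝒱.Obj} {f : ∀ j, Z j ⟶ X}

include hC hH

variable (H X) in
/-- The cycle class map as a linear map. -/
def clLin : C.A X →ₗ[ℚ] H.A X where
  toFun := H.cl
  map_add' := map_add H.cl
  map_smul' := fun q x => by
    rw [cl_rat_smul, Rat.cast_id, RingHom.id_apply]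

lemma clLin_apply (x : C.A X) : clLin H X x = H.cl x := rfl

/-- **The main lemma.** -/
theorem mem_pushedFrom (hfin : Module.Finite ℚ (H.A X)) {i : ℕ} (hB : BoundaryD H i Z f)
    (hX : ∀ x : C.A X, C.Deg i x →
      (∀ b, C.Deg ((X.dim : ℤ) - i) b → H.tr X (H.cl x * H.cl b) = 0) → x = 0)
    {x : C.A X} (hx : C.Deg i x) (hx' : H.cl x ∈ pushedFrom H.toTheoryData 2 Z f (2 * i)) :
    x ∈ pushedFrom C 1 Z f i := by
  let B : Submodule ℚ (H.A X) := (C.gr X ((X.dim : ℤ) - i)).map (clLin H X)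
  let p : C.A X →ₗ[ℚ] Module.Dual ℚ B :=
    (LinearMap.lcomp ℚ ℚ B.subtype) ∘ₗ ((LinearMap.mul ℚ (H.A X)).compr₂ (H.tr X)) ∘ₗ (clLin H X)
  have hp : ∀ (y : C.A X) (b : B), p y b = H.tr X (H.cl y * (b : H.A X)) := fun y b => rfl
  obtain ⟨u, hu, hux⟩ := exists_of_annihilator p (pushedFrom C 1 Z f i) x (by
    rintro ⟨_, β, hβ, rfl⟩ hb
    have h1 : pushedFrom C 1 Z f i ≤ orth H β := fun u hu => hb u hu
    rw [hp]
    exact tr_eq_zero_of_cl (hB β hβ (num_of_orth h1)) hx')
  have hu' : u ∈ C.gr X i := pushedFrom_le (i : ℤ) hu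
  have h2 : x - u = 0 := by
    refine hX _ (Submodule.sub_mem _ hx hu') fun b hb => ?_
    have h3 := LinearMap.congr_fun hux ⟨H.cl b, b, hb, rfl⟩
    rw [hp, hp] at h3
    rw [map_sub, sub_mul, map_sub]
    exact sub_eq_zero.2 h3.symm
  rw [sub_eq_zero.1 h2]
  exact hu

/-- **The pointwise criterion.** -/
theorem injective_iff {O : OpenData H} (hO : O.IsBetti) (hfin : Module.Finite ℚ (H.A X))
    (hG : IsCellular H X) {V : X.V.X.Opens} (hc : IsCovered V Z f) (i : ℕ) :
    O.Injective V i ↔ BoundaryD H i Z f := by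
  have hch := hO.chKer_eq X V r Z f hc i
  have hco := hO.cohKer_eq X V r Z f hc (2 * i)
  push_cast at hco
  constructor
  · intro h β hβ hn
    have h1 := orth_of_num hn
    refine cl_zero_of_tr hβ fun a ha => ?_
    have h2 : a ∈ (C.gr X (i : ℤ)).map (clLin H X) := by
      have h3 := hG.span i (pushedFromH_le _ ha)
      refine Submodule.span_le.2 ?_ h3
      rintro _ ⟨x, hx, rfl⟩
      exact ⟨x, hx, rfl⟩
    obtain ⟨x, hx, rfl⟩ := h2
    have h4 : O.HomTrivial V i x := ⟨hx, by rw [hco]; exact ha⟩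
    have h5 := hO.aj_eq_zero X V i (hG.odd _ ⟨(i : ℤ) - 1, by ring⟩) x h4
    have h6 := h x h4 h5
    rw [hch] at h6
    exact h1 h6
  · intro h x hx _
    rw [hch]
    refine mem_pushedFrom hfin h (fun x hx h1 => ?_) hx.1 (by rw [← hco]; exact hx.2)
    exact hG.inj i x hx (cl_zero_of_cellular hG (H.cl_mem hx) h1)

lemma boundaryD_of_standardD (hD : StandardD H) (i : ℕ) : BoundaryD H i Z f := by
  intro β hβ hn j
  rcases lt_or_ge (X.dim : ℤ) i with h2 | h2
  · have h3 : β ∈ C.gr X ((X.dim : ℤ) - i) := hβ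
    rw [C.gr_neg X _ (by omega)] at h3
    rw [(Submodule.mem_bot _).1 h3]
    change H.cl (C.pull (f j) 0) = 0
    rw [map_zero, map_zero]
  · obtain ⟨l, hl⟩ : ∃ l : ℕ, (l : ℤ) = (X.dim : ℤ) - i := ⟨X.dim - i, by omega⟩
    have h3 := hn j
    have h4 := deg_up (f := f) hβ j
    rw [← hl] at h3 h4
    exact hD _ l _ h4 h3

/-- **The standard conjecture D and open subvarieties.** -/
theorem standardD_tfae {O : OpenData H} (hO : O.IsBetti) (hfin : ∀ X, Module.Finite ℚ (H.A X))
    {R S : Set 𝒱.Obj} (hR : IsRich C R) (hS : IsAmbient H S) :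
    List.TFAE [
      StandardD H,
      ∀ (X : 𝒱.Obj) (V : X.V.X.Opens) (i : ℕ), CohVanishes H X (2 * i - 1) →
        ClInjective H X i → O.Injective V i,
      ∀ G ∈ S, ∀ (V : G.V.X.Opens) (i : ℕ), O.Injective V i,
      ∀ G ∈ S, ∀ Y ∈ R, ∀ (n : ℕ) (f : Y ⟶ G) (V : G.V.X.Opens), Y.dim = 2 * n →
        IsClosedImmersion f.hom → IsCovered V (fun _ : Fin 1 => Y) (fun _ => f) →
          O.Injective V (G.dim - n)] := by
  tfae_have 1 → 2 := by
    intro hD X V i _ h2 x hx _
    obtain ⟨r, Z, f, hc⟩ := hO.exists_cover X V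
    have hco := hO.cohKer_eq X V r Z f hc (2 * i)
    push_cast at hco
    rw [hO.chKer_eq X V r Z f hc i]
    refine mem_pushedFrom (hfin X) (boundaryD_of_standardD hD i) (fun x hx h1 => ?_) hx.1
      (by rw [← hco]; exact hx.2)
    exact h2 x hx (hD X i x hx fun b hb => by rw [TheoryData.mul, map_mul]; exact h1 b hb)
  tfae_have 2 → 3 := by
    intro h G hG V i
    have hG' := hS.cellular G hG
    exact h G V i (hG'.odd _ ⟨(i : ℤ) - 1, by ring⟩) (hG'.inj i)
  tfae_have 3 → 4 := fun h G hG Y _ n f V _ _ _ => h G hG V _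
  tfae_have 4 → 1 := by
    intro h
    have hgoal := (num_hom_iff (H := H) hR).2 (fun Y hY n ξ hd hξ hn => ?_)
    · exact fun X i z hz hz' => hgoal X i z hz ((numZero_iff hz).1 hz')
    obtain ⟨G, hG, f, a, q, hf, ha, hq, hfa⟩ := hS.restrict Y ξ hξ
    have ha' : C.Deg n (a ^ n) := pow_mem_gr_one ha n
    have hfa' : C.pull f (a ^ n) = q ^ n • ξ ^ n := by
      rw [map_pow]
      change (C.up f a) ^ n = _
      rw [hfa, smul_pow]
    have key : H.cl (C.pull f (a ^ n)) = 0 → H.cl ξ ^ n = 0 := by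
      intro h1
      rw [hfa', cl_rat_smul] at h1
      rw [← map_pow]
      rcases smul_eq_zero.1 h1 with h2 | h2
      · exact absurd h2 (by rw [Rat.cast_id]; exact pow_ne_zero n hq)
      · exact h2
    rcases Nat.lt_or_ge G.dim n with hlt | hge
    · apply key
      have h1 : a ^ n = 0 := hC.gr_top G n _ ha' (by exact_mod_cast hlt)
      rw [h1, map_zero, map_zero]
    · have hcl : IsClosed (Set.range f.hom) := f.hom.isClosedEmbedding.isClosed_range
      let V : G.V.X.Opens := ⟨(Set.range f.hom)ᶜ, hcl.isOpen_compl⟩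
      have hc : IsCovered V (fun _ : Fin 1 => Y) (fun _ => f) :=
        fun x => ⟨fun hx _ => hx, fun hx => hx 0⟩
      have h1 := (injective_iff hO (hfin G) (hS.cellular G hG) hc (G.dim - n)).1
        (h G hG Y hY n f V hd hf hc)
      have e1 : ((G.dim : ℤ) - ((G.dim - n : ℕ) : ℤ)) = n := by omega
      have h2 := h1 (a ^ n) (by rw [e1]; exact ha') (fun _ => by
        rw [e1]
        have h3 : ξ ^ n ∈ numFam C Y (n : ℤ) := ⟨pow_mem_gr_one hξ n, hn⟩
        have h4 := Submodule.smul_mem _ (q ^ n) h3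
        rw [← hfa'] at h4
        exact (numZero_iff h4.1).2 h4.2) 0
      exact key h2
  tfae_finish

end rat

end Pool.Agent.TH85.OV
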