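import Pool.Agent.TH85.OV.DefsL
import Pool.Agent.TH85.OV.Main

/-!
# Cycle class maps of open subvarieties
-/

open CategoryTheory AlgebraicGeometry

universe u v w

namespace Pool.Agent.TH85.OV

open Pool.Agent.H914 Pool.Agent.H914.VarClass Pool.Agent.H914.VarClass.Obj Pool.Agent.W492.BB
  Pool.Agent.W550.Corr Pool.Agent.TH133 Pool.Agent.TH829.Prime Pool.Agent.TH85.PD

set_option linter.unusedSectionVars false

variable {k : Type u} [Field k] {𝒱 : VarClass k} {C : TheoryData.{u, v, 0} 𝒱 ℚ}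
  [hC : IsChowProj C] {K : Type w} [Field K] [CharZero K]
  {H : WeilTheoryData.{u, v, w} C K} [hH : IsWeilProj H] {X Y : 𝒱.Obj}
  {r : ℕ} {Z : Fin r → 𝒱.Obj} {f : ∀ j, Z j ⟶ X}

include hC hH

variable (H X) in
/-- The degree of zero-cycles. -/
noncomputable def degL : C.gr X X.dim →ₗ[ℚ] ℚ where
  toFun z := Classical.choose (exists_hasDegree z.2)
  map_add' a b := hasDegree_unique H (Classical.choose_spec (exists_hasDegree (a + b).2))
    (hasDegree_add (Classical.choose_spec (exists_hasDegree a.2))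
      (Classical.choose_spec (exists_hasDegree b.2)))
  map_smul' q a := hasDegree_unique H (Classical.choose_spec (exists_hasDegree (q • a).2))
    (hasDegree_smul q (Classical.choose_spec (exists_hasDegree a.2)))

lemma mul_mem_dim {i : ℕ} (a : C.gr X (i : ℤ)) (b : C.gr X ((X.dim : ℤ) - i)) :
    (a : C.A X) * b ∈ C.gr X X.dim := by
  have := C.mul_mem a.2 b.2
  rwa [add_sub_cancel] at this

variable (H X) in
/-- The intersection pairing. -/
noncomputable def pairing (i : ℕ) : C.gr X (i : ℤ) →ₗ[ℚ] C.gr X ((X.dim : ℤ) - i) →ₗ[ℚ] ℚ :=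
  LinearMap.mk₂ ℚ (fun a b => degL H X ⟨(a : C.A X) * b, mul_mem_dim (H := H) a b⟩)
    (fun a a' b => by
      rw [← map_add]
      congr 1
      exact Subtype.ext (add_mul _ _ _))
    (fun q a b => by
      rw [← map_smul]
      congr 1
      exact Subtype.ext (smul_mul_assoc _ _ _))
    (fun a b b' => by
      rw [← map_add]
      congr 1
      exact Subtype.ext (mul_add _ _ _))
    (fun q a b => by
      rw [← map_smul]
      congr 1
      exact Subtype.ext (mul_smul_comm _ _ _))

/-- The orientation of a product is the intersection number, up to a constant. -/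
lemma exists_const (i : ℕ) : ∃ c : K, c ≠ 0 ∧ ∀ (a : C.gr X (i : ℤ)) (b : C.gr X ((X.dim : ℤ) - i)),
    H.tr X (H.cl (a : C.A X) * H.cl (b : C.A X)) = (pairing H X i a b : K) * c := by
  obtain ⟨c, hc, h⟩ := exists_tr_const H X
  refine ⟨c, hc, fun a b => ?_⟩
  rw [← map_mul]
  exact h _ _ (mul_mem_dim (H := H) a b)
    (Classical.choose_spec (exists_hasDegree (mul_mem_dim (H := H) a b)))

lemma pairing_injective {i : ℕ} (hX : ∀ x : C.A X, C.Deg i x → NumZero H i x → x = 0) :
    Function.Injective (pairing H X i) := by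
  rw [injective_iff_map_eq_zero]
  intro a ha
  obtain ⟨c, _, h⟩ := exists_const (H := H) (X := X) i
  refine Subtype.ext (hX a a.2 fun b hb => ?_)
  have h1 := h a ⟨b, hb⟩
  rw [ha, LinearMap.zero_apply, Rat.cast_zero, zero_mul] at h1
  rw [TheoryData.mul, map_mul]
  exact h1

/-- Chow groups modulo numerical equivalence are finite-dimensional. -/
lemma finite_gr (hfin : Module.Finite K (H.A X)) {i : ℕ}
    (hX : ∀ x : C.A X, C.Deg i x → NumZero H i x → x = 0) :
    Module.Finite ℚ (C.gr X (i : ℤ)) := by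
  let s : Set (H.A X) := {a | ∃ b : C.A X, C.Deg ((X.dim : ℤ) - i) b ∧ H.cl b = a}
  obtain ⟨t, hts, hspan, hli⟩ := exists_linearIndependent K s
  have hfint : Finite t := hli.finite
  choose b hb hbt using fun a : t => hts a.2
  let P : C.gr X (i : ℤ) →ₗ[ℚ] (t → ℚ) :=
    LinearMap.pi fun a => (pairing H X i).flip ⟨b a, hb a⟩
  have hP : Function.Injective P := by
    rw [injective_iff_map_eq_zero]
    intro a ha
    obtain ⟨c, hc, h⟩ := exists_const (H := H) (X := X) i
    refine Subtype.ext (hX a a.2 fun b' hb' => ?_)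
    have h1 : s ⊆ (LinearMap.ker ((H.tr X) ∘ₗ (LinearMap.mulLeft K (H.cl (a : C.A X)))) :
        Submodule K (H.A X)) := by
      have h2 : Submodule.span K t ≤
          LinearMap.ker ((H.tr X) ∘ₗ (LinearMap.mulLeft K (H.cl (a : C.A X)))) := by
        refine Submodule.span_le.2 fun e he => ?_
        have h3 := congrFun ha ⟨e, he⟩
        have h4 : pairing H X i a ⟨b ⟨e, he⟩, hb ⟨e, he⟩⟩ = 0 := h3
        have h5 := h a ⟨b ⟨e, he⟩, hb ⟨e, he⟩⟩
        rw [h4, Rat.cast_zero, zero_mul] at h5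
        rw [SetLike.mem_coe, LinearMap.mem_ker, LinearMap.comp_apply, LinearMap.mulLeft_apply]
        have h6 : H.cl (b ⟨e, he⟩) = e := hbt ⟨e, he⟩
        rw [← h6]
        exact h5
      rw [hspan] at h2
      exact fun e he => h2 (Submodule.subset_span he)
    have h7 := h1 ⟨b', hb', rfl⟩
    rw [SetLike.mem_coe, LinearMap.mem_ker, LinearMap.comp_apply, LinearMap.mulLeft_apply] at h7
    rw [TheoryData.mul, map_mul]
    exact h7
  exact Module.Finite.of_injective P hP

/-- Injectivity for open subvarieties from a condition on the boundary. -/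
theorem injective_of {O : RestrData H} (hO : O.IsLocal) (hfin : Module.Finite K (H.A X))
    {V : X.V.X.Opens} (hc : IsCovered V Z f) {i : ℕ} (hB : ∀ β : C.A X,
      C.Deg ((X.dim : ℤ) - i) β → (∀ j, NumZero H ((X.dim : ℤ) - i) (C.up (f j) β)) →
        ∀ j, H.cl (C.up (f j) β) = 0)
    (hX : ∀ x : C.A X, C.Deg i x → NumZero H i x → x = 0) : O.Injective V i := by
  intro n c x hx hN l hl
  have hco := hO.cohKer_eq X V r Z f hc (2 * i)
  push_cast at hco
  rw [hco] at hN
  rw [hO.chKer_eq X V r Z f hc i] at hl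
  have hfin' := finite_gr (H := H) hfin hX
  obtain ⟨b, hb⟩ := (LinearMap.flip_surjective_iff₁.2 (pairing_injective (H := H) hX))
    (l ∘ₗ (C.gr X (i : ℤ)).subtype)
  have hb' : ∀ a : C.gr X (i : ℤ), pairing H X i a b = l a := fun a => LinearMap.congr_fun hb a
  obtain ⟨c0, hc0, h⟩ := exists_const (H := H) (X := X) i
  have h1 : pushedFrom C 1 Z f i ≤ orth H (b : C.A X) := by
    intro u hu
    have h2 := h ⟨u, pushedFrom_le (i : ℤ) hu⟩ b
    rw [hb', hl u hu, Rat.cast_zero, zero_mul] at h2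
    exact h2
  have h3 := tr_eq_zero_of_cl (hB b b.2 (num_of_orth h1)) hN
  rw [Finset.sum_mul, map_sum] at h3
  have h4 : ∀ j ∈ Finset.univ, H.tr X (c j • H.cl (x j) * H.cl (b : C.A X)) =
      (c j * (l (x j) : K)) * c0 := by
    intro j _
    have h5 := h ⟨x j, hx j⟩ b
    rw [hb'] at h5
    rw [smul_mul_assoc, map_smul, smul_eq_mul, mul_assoc]
    exact congrArg (c j * ·) h5
  rw [Finset.sum_congr rfl h4, ← Finset.sum_mul] at h3
  exact (mul_eq_zero.1 h3).resolve_right hc0

/-- The condition on the boundary from injectivity, for cellular varieties. -/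
theorem boundary_of_injective {O : RestrData H} (hO : O.IsLocal) (hG : IsCellular H X)
    {V : X.V.X.Opens} (hc : IsCovered V Z f) {i : ℕ} (hI : O.Injective V i) {β : C.A X}
    (hβ : C.Deg ((X.dim : ℤ) - i) β) (hn : ∀ j, NumZero H ((X.dim : ℤ) - i) (C.up (f j) β))
    (j : Fin r) : H.cl (C.up (f j) β) = 0 := by
  have hco := hO.cohKer_eq X V r Z f hc (2 * i)
  push_cast at hco
  obtain ⟨c0, hc0, h⟩ := exists_const (H := H) (X := X) i
  refine cl_zero_of_tr hβ (fun a ha => ?_) j
  have h3 := hG.span i (pushedFromH_le _ ha)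
  obtain ⟨n, c, g, hg⟩ := (Submodule.mem_span_set').1 h3
  choose x hx hxg using fun s => (g s).2
  obtain ⟨l, hl⟩ := LinearMap.exists_extend ((pairing H X i).flip ⟨β, hβ⟩)
  have hl' : ∀ y (hy : C.Deg i y), l y = pairing H X i ⟨y, hy⟩ ⟨β, hβ⟩ := fun y hy =>
    LinearMap.congr_fun hl ⟨y, hy⟩
  have hsum : a = ∑ s, c s • H.cl (x s) := by
    rw [← hg]
    exact Finset.sum_congr rfl fun s _ => by rw [hxg]
  have h4 := hI n c x hx (by rw [hco, ← hsum]; exact ha) l (fun u hu => by
    rw [hO.chKer_eq X V r Z f hc i] at hu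
    have h5 : C.Deg i u := pushedFrom_le (i : ℤ) hu
    rw [hl' u h5]
    have h6 := h ⟨u, h5⟩ ⟨β, hβ⟩
    have h7 : H.tr X (H.cl u * H.cl β) = 0 := orth_of_num hn hu
    rw [h7] at h6
    have h8 := (mul_eq_zero.1 h6.symm).resolve_right hc0
    exact_mod_cast h8)
  rw [hsum, Finset.sum_mul, map_sum]
  have h9 : ∀ s ∈ Finset.univ, H.tr X (c s • H.cl (x s) * H.cl β) = (c s * (l (x s) : K)) * c0 := by
    intro s _
    rw [hl' _ (hx s), smul_mul_assoc, map_smul, smul_eq_mul, mul_assoc]
    exact congrArg (c s * ·) (h ⟨x s, hx s⟩ ⟨β, hβ⟩)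
  rw [Finset.sum_congr rfl h9, ← Finset.sum_mul, h4, zero_mul]

/-- **The standard conjecture D and cycle class maps of open subvarieties.** -/
theorem standardD_iff {O : RestrData H} (hO : O.IsLocal) (hfin : ∀ X, Module.Finite K (H.A X))
    {R S : Set 𝒱.Obj} (hR : IsRich C R) (hS : IsAmbient H S) : StandardD H ↔ O.InjectiveOn S := by
  constructor
  · intro hD G hG V r Z f hc i
    have hG' := hS.cellular G hG
    refine injective_of hO (hfin G) hc (fun β hβ hn j => ?_) (fun x hx h1 => ?_)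
    · rcases lt_or_ge (G.dim : ℤ) i with h2 | h2
      · have h3 : β ∈ C.gr G ((G.dim : ℤ) - i) := hβ
        rw [C.gr_neg G _ (by omega)] at h3
        rw [(Submodule.mem_bot _).1 h3]
        change H.cl (C.pull (f j) 0) = 0
        rw [map_zero, map_zero]
      · obtain ⟨l, hl⟩ : ∃ l : ℕ, (l : ℤ) = (G.dim : ℤ) - i := ⟨G.dim - i, by omega⟩
        have h3 := hn j
        have h4 := deg_up (f := f) hβ j
        rw [← hl] at h3 h4
        exact hD _ l _ h4 h3
    · refine hG'.inj i x hx (cl_zero_of_cellular hG' (H.cl_mem hx) fun b hb => ?_)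
      rw [← map_mul]
      exact h1 b hb
  · intro h
    have hgoal := (num_hom_iff (H := H) hR).2 (fun Y hY n ξ hd hξ hn => ?_)
    · exact fun X i z hz hz' => hgoal X i z hz ((numZero_iff hz).1 hz')
    obtain ⟨G, hG, f, a, q, hf, ha, hq, hfa⟩ := hS.restrict Y ξ hξ
    have ha' : C.Deg n (a ^ n) := pow_mem_gr_one ha n
    have hfa' : C.pull f (a ^ n) = q ^ n • ξ ^ n := by
      rw [map_pow]
      change (C.up f a) ^ n = _
      rw [hfa, smul_pow]
    have key : H.cl (C.pull f (a ^ n)) = 0 → H.cl ξ ^ n = 0 := by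
      intro h1
      rw [hfa', cl_rat_smul] at h1
      rw [← map_pow]
      rcases smul_eq_zero.1 h1 with h2 | h2
      · exact absurd h2 (by exact_mod_cast pow_ne_zero n hq)
      · exact h2
    rcases Nat.lt_or_ge G.dim n with hlt | hge
    · apply key
      have h1 : a ^ n = 0 := hC.gr_top G n _ ha' (by exact_mod_cast hlt)
      rw [h1, map_zero, map_zero]
    · have hcl : IsClosed (Set.range f.hom) := f.hom.isClosedEmbedding.isClosed_range
      let V : G.V.X.Opens := ⟨(Set.range f.hom)ᶜ, hcl.isOpen_compl⟩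
      have hc : IsCovered V (fun _ : Fin 1 => Y) (fun _ => f) :=
        fun x => ⟨fun hx _ => hx, fun hx => hx 0⟩
      have e1 : ((G.dim : ℤ) - ((G.dim - n : ℕ) : ℤ)) = n := by omega
      have h2 := boundary_of_injective hO (hS.cellular G hG) hc (h G hG V 1 _ _ hc (G.dim - n))
        (β := a ^ n) (by rw [e1]; exact ha') (fun _ => by
          rw [e1]
          have h3 : ξ ^ n ∈ numFam C Y (n : ℤ) := ⟨pow_mem_gr_one hξ n, hn⟩
          have h4 := Submodule.smul_mem _ (q ^ n) h3
          rw [← hfa'] at h4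
          exact (numZero_iff h4.1).2 h4.2) 0
      exact key h2

/-- **Rational and numerical equivalence and cycle class maps of open subvarieties.** -/
theorem ratNum_tfae {O : RestrData H} (hO : O.IsLocal) (hfin : ∀ X, Module.Finite K (H.A X))
    {R S : Set 𝒱.Obj} (hR : IsRich C R) (hS : IsAmbient H S) :
    List.TFAE [
      O.InjectiveOn Set.univ,
      ∀ (X : 𝒱.Obj) (i : ℕ) (z : C.A X), C.Deg i z → NumZero H i z → z = 0,
      ∀ X ∈ R, ∀ (n : ℕ) (ξ : C.A X), X.dim = 2 * n → C.Deg 1 ξ → NumZero H n (ξ ^ n) →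
        ξ ^ n = 0] := by
  tfae_have 2 → 1 := by
    intro h X _ V r Z f hc i
    refine injective_of hO (hfin X) hc (fun β hβ hn j => ?_) (fun x hx h1 => h X i x hx h1)
    rcases lt_or_ge (X.dim : ℤ) i with h2 | h2
    · have h3 : β ∈ C.gr X ((X.dim : ℤ) - i) := hβ
      rw [C.gr_neg X _ (by omega)] at h3
      rw [(Submodule.mem_bot _).1 h3]
      change H.cl (C.pull (f j) 0) = 0
      rw [map_zero, map_zero]
    · obtain ⟨l, hl⟩ : ∃ l : ℕ, (l : ℤ) = (X.dim : ℤ) - i := ⟨X.dim - i, by omega⟩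
      have h3 := hn j
      have h4 := deg_up (f := f) hβ j
      rw [← hl] at h3 h4
      rw [h _ l _ h4 h3, map_zero]
  tfae_have 1 → 2 := by
    intro h X i z hz hn
    have hD : StandardD H := (standardD_iff hO hfin hR hS).2 fun G _ => h G (Set.mem_univ G)
    have h1 := hD X i z hz hn
    have hc : IsCovered (⊤ : X.V.X.Opens) (fun _ : Fin 0 => X) (fun _ => 𝟙 X) :=
      fun x => ⟨fun _ j => j.elim0, fun _ => trivial⟩
    have h2 := h X (Set.mem_univ X) ⊤ 0 _ _ hc i
    have hch : O.chKer X ⊤ i = ⊥ := by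
      rw [hO.chKer_eq X ⊤ 0 _ _ hc i, pushedFrom, iSup_of_empty]
    rw [← Module.forall_dual_apply_eq_zero_iff ℚ z]
    intro l
    have h3 := h2 1 (fun _ => 1) (fun _ => z) (fun _ => hz) (by
      rw [Fin.sum_univ_one, h1, smul_zero]
      exact Submodule.zero_mem _) l (fun u hu => by
        rw [hch, Submodule.mem_bot] at hu
        rw [hu, map_zero])
    rw [Fin.sum_univ_one, one_mul] at h3
    exact_mod_cast h3
  tfae_have 2 ↔ 3 := by
    have h1 := num_rat_iff (C := C) (chow_one_ne_zero H) hR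
    constructor
    · intro h X _ n ξ _ hξ hn
      exact h X n _ (pow_mem_gr_one hξ n) hn
    · intro h X i z hz hn
      refine h1.2 (fun Y hY n ξ hd hξ hn => ?_) X i z hz ((numZero_iff hz).1 hn)
      have h4 : ξ ^ n ∈ C.gr Y n := pow_mem_gr_one hξ n
      exact h Y hY n ξ hd hξ ((numZero_iff (H := H) h4).2 hn)
  tfae_finish

end Pool.Agent.TH85.OV
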